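import Mathlib

namespace Pool.Agent.Results.MP_d9dcf6_co.DoubleCover
open Finset

variable {m n : ℕ}

/-- Column `i` as a real vector. -/
def col (V : Fin m → Fin n → ℤ) (i : Fin m) : Fin n → ℝ := fun a => (V i a : ℝ)

/-- The cone spanned by the columns indexed by `s`. -/
def cone (V : Fin m → Fin n → ℤ) (s : Finset (Fin m)) : Set (Fin n → ℝ) :=
  {x | ∃ c : Fin m → ℝ, (∀ i, 0 ≤ c i) ∧ x = ∑ i ∈ s, c i • col V i}

/-- Combinations with all coefficients positive: the interior of a full simplicial cone. -/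
def inner (V : Fin m → Fin n → ℤ) (s : Finset (Fin m)) : Set (Fin n → ℝ) :=
  {x | ∃ c : Fin m → ℝ, (∀ i, 0 < c i) ∧ x = ∑ i ∈ s, c i • col V i}

/-- F-matrix (rank `n` follows from the columns generating the space as a cone). -/
def FMatrix (V : Fin m → Fin n → ℤ) : Prop :=
  (∀ i, V i ≠ 0) ∧ (∀ i j, i ≠ j → ∀ t : ℝ, 0 < t → col V i ≠ t • col V j) ∧
    cone V univ = Set.univ ∧ ∀ i, univ.gcd (V i) = 1

/-- `s` indexes a cone of the set `M`. -/
def InM (V : Fin m → Fin n → ℤ) (s : Finset (Fin m)) : Prop :=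
  s.card = n ∧ LinearIndependent ℝ (fun i : s => col V i) ∧ ∀ l ∉ s, col V l ∉ cone V s

/-- Pseudofan; the facet of `s` opposite to `k` is spanned by `s.erase k`. -/
def Pseudofan (V : Fin m → Fin n → ℤ) (C : List (Finset (Fin m))) : Prop :=
  (∀ s ∈ C, InM V s) ∧ (∀ i, ∃ s ∈ C, i ∈ s) ∧ ∀ s ∈ C, ∀ k ∈ s, ∃ t ∈ C, t ≠ s ∧
    s.erase k ⊆ t ∧ (∀ u ∈ C, u ≠ s → s.erase k ⊆ u → u = t) ∧
    ∃ f : (Fin n → ℝ) →ₗ[ℝ] ℝ, (∀ i ∈ s.erase k, f (col V i) = 0) ∧ 0 < f (col V k) ∧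
      ∀ i ∈ t, f (col V i) ≤ 0

/-- The columns, stored in base 32 with offset 10:
(7, 9, -9), (-3, 1, 8), (-5, -9, 3), (-8, -3, -2), (7, -2, -7),
    (-5, -1, -7), (-4, 7, 7), (5, -2, 3), (1, -1, -9), (1, -5, -5),
    (1, 3, 8), (1, 8, -8), (-7, 4, 6), (9, 6, -1), (-1, -1, 6),
    (-5, 2, -2), (8, -9, 0), (-1, -8, 2), (3, 6, 2), (-4, 3, -1) -/
def W (i : Fin 20) (a : Fin 3) : ℤ :=
  Int.subNatNat (Nat.mod (Nat.div 599174477804303138434777721628729864843558237559527300203253266992206409158880536724473457 (Nat.pow 32 (Nat.add (Nat.mul 3 i.val) a.val))) 32) 10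

abbrev Tr := Fin 20 × Fin 20 × Fin 20

def T : List Tr :=
  [(0, 6, 4), (0, 4, 9), (0, 11, 6), (4, 6, 18), (0, 9, 8), (2, 9, 4),
    (0, 16, 11), (6, 11, 19), (1, 18, 6), (4, 18, 13), (0, 8, 18), (8, 9, 17),
    (2, 4, 17), (2, 12, 9), (0, 13, 16), (4, 11, 16), (4, 19, 11), (5, 6, 19),
    (1, 2, 18), (1, 6, 17), (4, 13, 10), (12, 13, 18), (0, 18, 10), (8, 11, 18),
    (8, 17, 11), (9, 14, 17), (2, 17, 6), (4, 16, 17), (2, 6, 12), (3, 9, 12),
    (0, 14, 13), (13, 17, 16), (4, 15, 19), (5, 15, 6), (5, 19, 18), (1, 3, 2),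
    (2, 14, 18), (1, 17, 14), (4, 10, 7), (6, 10, 13), (3, 12, 18), (6, 13, 12),
    (0, 10, 14), (10, 18, 14), (5, 18, 11), (5, 11, 17), (9, 16, 14), (3, 15, 9),
    (7, 13, 14), (7, 17, 13), (3, 19, 15), (4, 8, 15), (5, 9, 15), (6, 15, 10),
    (3, 18, 19), (1, 5, 3), (2, 3, 7), (2, 7, 14), (1, 14, 16), (4, 7, 5),
    (7, 10, 16), (3, 5, 17), (7, 16, 9), (3, 17, 7), (1, 15, 8), (4, 5, 8),
    (5, 7, 9), (10, 15, 12), (1, 8, 5), (1, 16, 10), (1, 12, 15), (1, 10, 12)]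

def fs (u : Tr) : Finset (Fin 20) := {u.1, u.2.1, u.2.2}

def C : List (Finset (Fin 20)) := T.map fs

def D (i j a : Fin 20) : ℤ := (W i 1 * W j 2 - W i 2 * W j 1) * W a 0 +
  (W i 2 * W j 0 - W i 0 * W j 2) * W a 1 + (W i 0 * W j 1 - W i 1 * W j 0) * W a 2

theorem exL (i j : Fin 20) : ∃ f : (Fin 3 → ℝ) →ₗ[ℝ] ℝ, ∀ a, f (col W a) = D i j a :=
  ⟨((W i 1 * W j 2 - W i 2 * W j 1 : ℤ) : ℝ) • LinearMap.proj 0 +
    ((W i 2 * W j 0 - W i 0 * W j 2 : ℤ) : ℝ) • LinearMap.proj 1 +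
    ((W i 0 * W j 1 - W i 1 * W j 0 : ℤ) : ℝ) • LinearMap.proj 2, fun a => by simp [D, col]⟩

def sg : ℤ → ℕ
  | Int.ofNat 0 => 0
  | Int.ofNat (_ + 1) => 1
  | Int.negSucc _ => 2

def tb : ℕ := 0x96665a5a912959a5a9624599a5a5626199a5a561a855a59a5296265a5691aa45a59a5256a25a55a1aa64959a925599296562559a4a6561aa66525a91aa66949a925599a9256256aa5a45a16999a5a161a959a5a861aa65a59a1256a65a55806999a5a56000000000081a66569a9486665a5a946199a5a5685869569a94a6265a56985949a5a964a591a965685a68569a94a696196694a6968966689a66525a985969a4a9646599a92564a6965946985999a5a16859695698985969669924a69699664216a65a56942599a9656000000000090959a5aa6a12665a569624969965652919a5a96626865a55991a61569a962598a965691969269a991a69469a952599a1a56626965865aa1a66561a991969a58a6a1a665a529616a65a549626965965291969a59a418a665a5a984999a5a56606a65a5590000000000582665a5a96449a5a65a94919a5a966468a5a65a98951a5aa5645986965698a66169a998a65859a964599a1a566459a68656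98a66561a998955a58a5686665a529686a65a5496459a5a65298959a5aa4192665a5a9892665a5a952199a5a96a4199a5a5600000000005a055a5aa5a52265a5595a245999a9a52a25a5585a264999a9a519925a56a51aa466565a255a19a95a266985a9a519966256a51aa5a45a56199a5a165a199a5a865a255a59a1a52a25a558254aa5a65a4a496a965691869669a998865a59a5a50aa5a55a00000000005a415a96656548a5a65a66492596565a494a966699869269a995869469a95a455a1aa56649a58656a58aa5615a5a855a58a5a58aa5691aa5869569896649a5a6525a495a966416919a5a9685919a5a96a16265a569686265a5695a119a5aa6a582a5699a0000000000a5909a5a965a511a9aa6a59286699a5a616195695a61589665a5a2652559a5929a4a965a515a92655a616994695a515a9a26a56265a549a5929669925a515a9a642558a5a65a4a6865a56991949a5aa698945a59a5a518a666569a845a59a55a6065a5690000000000666825a65a5a644995a9a598926a96a558a4a6565aa45919a95a64658569a598a66256666865a45aa598966a1695949a5a865aa45a59a1666865a5581a951a5aa585a62569a962592a9656646a25a55a5a151a5aa499861a69a9a5a2256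55999941a59a5000000000095a60569a966592196566659289656a5aa25255999961a49a55a591a9256666a25a45a5a591a9a265a591a9a4699961a69a1a52a25a558255986a6564a594a965691a64569a998a64969a9a519866656a5868569995a61499665a598866a566a590a9656000000000099a64169a95a694896655aa64919a96559868656a5998662565a654994a9a59a866916a5a6856989a59a8669925a694a96641aa66169a98596926996626961965664599296565a2661a5a96649619656a592926a965a6461956999a61269a96659829656000000000099a65069a9a559921a565a666185a95aa66161a9a5969268965a666195296a696196496a6961965295969269a41aa65859a9859694699962596896566459a4a6565a255899a96a49689656a592a4699a5aa45859a999a61469a9a59684699a6659a096560000000000a55aa4265699a65849a95a655892a5a59aa464565a655896256a696896465a65589aa1a59694699825599a1a5646599a1a56a1a66525a998a66525a9a51aa52656a58aa5255a5a519a1aa6a558a626565a551a1aa6a5598626565aa66125a95aa55819a90000000000a5599606565aa66921a95a655a18a5a5a6652529a5a6652549a59aa526525a55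5a1aa425599686564a6965856991969a49a598a65949a9a519964a5699865a49a95a61658569a5989a4a96666925865a9aa64949a9a599924a566659a486565aa66909a90000000000a5599642566a69658469a5999a4a1695969a498699965a49a16a696586581aa66561a989a66561a952599a925664599a92565a266991a95a455a92a5a5a2a5619a5a645991a9a5a62561a95a664991a9a559929256a59aa4615aa5599612565aa66981a90000000000a59aa660565a555a92255a595a92465a655992a1a5a6a561981a955a58a585969a6896626965a459646aa5a45a5a255a58a5a54aa5a45aa59296689699949a58a599951a58a5a59a8668565a696194695a655898a9a59aa5245a95969a48965a655990a900000000005a656994296a6965a449a59aa5645299969a58a4296665a5294a6665a52952599a5a1694999a5a16a92665a5295a455a9625a5a2a565195a64699529a5a62565195a65499629a599926a16a59aa4691a5a599a1a165a66658529a5aaa5611aa59a96681600000000005a599a9a065a65599621a5aaa56518256a65a5494a696a964692959a5a8694959a5a86a52665a5495a496a96465a919a5a866a6865a549a5a62565895a594a9646959692698695969469895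a599a1a866a69658649a5a6a5618995969a5886a5a665650900000000006a6969964195969669882559a5a6524a6969966191969a69a198a65a59a1a51aa5a65299865a59a15a61699661a558a5a65266692596525a6549966195969269a1a59aa465525a655a19a16669a58652a59aa661525a655a98a1a59aa66912959696698200000000006a696996501a959a5aa48596966998626965a658646a65a5585a151a5aa4a586a56998a5a2a5659899949a5aa45a151a5aa4a5968569986a696196585a69689664a5aaa5255895969a49a45a595a9264666965a4585a555a9a246a6969964495969669a00000000000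

def S (i j a : Fin 20) : ℕ := Nat.mod (Nat.shiftRight tb
  (Nat.mul 2 (Nat.add (Nat.add (Nat.mul 400 i.val) (Nat.mul 20 j.val)) a.val))) 4

theorem HS : ∀ i j a, sg (D i j a) = S i j a := by decide +kernel

theorem HS' (i j a : Fin 20) : (S i j a = 0 → D i j a = 0) ∧ (S i j a = 1 → 0 < D i j a) ∧
    (S i j a = 2 → D i j a < 0) ∧ (S i j a ≠ 1 → D i j a ≤ 0) := by
  rw [← HS]
  rcases D i j a with (_ | n) | n <;> simp [sg] <;> omega

def mm (i : Fin 20) (u : Tr) : Bool := i == u.1 || i == u.2.1 || i == u.2.2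

theorem mm_iff (i : Fin 20) (u : Tr) : mm i u = true ↔ i ∈ fs u := by simp [mm, fs, or_assoc]

def c1 (t : Tr) (i j k : Fin 20) : Bool := S i j k == 1 && S i j i == 0 && S i j j == 0 &&
  (T.any fun u => mm i u && mm j u && !mm k u && S i j u.1 != 1 && S i j u.2.1 != 1 &&
    S i j u.2.2 != 1 && T.all fun v => !mm i v || !mm j v || v == u || v == t)

theorem B1 : (T.all fun t => c1 t t.1 t.2.1 t.2.2 && c1 t t.2.1 t.2.2 t.1 && c1 t t.2.2 t.1 t.2.1 &&
    t.1 != t.2.1 && t.1 != t.2.2 && t.2.1 != t.2.2 && (List.finRange 20).all fun l => mm l t ||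
      S t.1 t.2.1 l == 2 || S t.2.1 t.2.2 l == 2 || S t.2.2 t.1 l == 2) = true := by
  decide +kernel

theorem c1_spec {t : Tr} {i j k : Fin 20} (h : c1 t i j k = true) : S i j k = 1 ∧ S i j i = 0 ∧
    S i j j = 0 ∧ ∃ u ∈ C, i ∈ u ∧ j ∈ u ∧ k ∉ u ∧ (∀ a ∈ u, S i j a ≠ 1) ∧
      ∀ v ∈ C, i ∈ v → j ∈ v → v = u ∨ v = fs t := by
  simp only [c1, Bool.and_eq_true, beq_iff_eq, List.any_eq_true, List.all_eq_true,
    Bool.or_eq_true, Bool.not_eq_true', ← Bool.not_eq_true, mm_iff, bne_iff_ne] at h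
  obtain ⟨⟨⟨h1, h2⟩, h3⟩, u, hu, ⟨⟨⟨⟨⟨⟨a1, a2⟩, a3⟩, a4⟩, a5⟩, a6⟩, a7⟩⟩ := h
  refine ⟨h1, h2, h3, fs u, List.mem_map_of_mem hu, a1, a2, by simpa using a3, ?_, ?_⟩
  · simp [fs, a4, a5, a6]
  · intro v hv b1 b2
    obtain ⟨v, hv', rfl⟩ := List.mem_map.1 hv
    rcases a7 v hv' with ((h | h) | h) | h
    · simp [b1] at h
    · simp [b2] at h
    · exact Or.inl (by rw [h])
    · exact Or.inr (by rw [h])

theorem G1 : ∀ s ∈ C, s.card = 3 ∧ ∀ k ∈ s, ∃ i ∈ s, ∃ j ∈ s, S i j k = 1 ∧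
    (∀ a ∈ s, a = i ∨ a = j ∨ a = k) ∧ i ≠ k ∧ j ≠ k ∧ S i j i = 0 ∧ S i j j = 0 ∧
    ∃ t ∈ C, i ∈ t ∧ j ∈ t ∧ k ∉ t ∧ (∀ a ∈ t, S i j a ≠ 1) ∧
      ∀ u ∈ C, i ∈ u → j ∈ u → u = t ∨ u = s := by
  intro s hs
  obtain ⟨t, ht, rfl⟩ := List.mem_map.1 hs
  have h := List.all_eq_true.1 B1 t ht
  simp only [Bool.and_eq_true, bne_iff_ne] at h
  obtain ⟨⟨⟨⟨⟨⟨h1, h2⟩, h3⟩, n1⟩, n2⟩, n3⟩, _⟩ := h
  have k1 := c1_spec h1
  have k2 := c1_spec h2
  have k3 := c1_spec h3
  refine ⟨card_eq_three.2 ⟨_, _, _, n1, n2, n3, rfl⟩, fun k hk => ?_⟩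
  simp only [fs, mem_insert, mem_singleton] at hk
  rcases hk with rfl | rfl | rfl
  · exact ⟨_, by simp [fs], _, by simp [fs], k2.1, by simp [fs], n1.symm, n2.symm, k2.2⟩
  · exact ⟨_, by simp [fs], _, by simp [fs], k3.1, by simp [fs], n3.symm, n1, k3.2⟩
  · exact ⟨_, by simp [fs], _, by simp [fs], k1.1, by simp [fs], n2, n3, k1.2⟩

theorem G2 : ∀ s ∈ C, ∀ l, l ∈ s ∨ ∃ i ∈ s, ∃ j ∈ s, S i j l = 2 ∧ ∃ k ∈ s, S i j k = 1 ∧
    ∀ a ∈ s.erase k, S i j a = 0 := by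
  intro s hs l
  obtain ⟨t, ht, rfl⟩ := List.mem_map.1 hs
  have h := List.all_eq_true.1 B1 t ht
  simp only [Bool.and_eq_true, bne_iff_ne, List.all_eq_true, Bool.or_eq_true, mm_iff,
    beq_iff_eq] at h
  obtain ⟨⟨⟨⟨⟨⟨h1, h2⟩, h3⟩, n1⟩, n2⟩, n3⟩, h⟩ := h
  have k1 := c1_spec h1
  have k2 := c1_spec h2
  have k3 := c1_spec h3
  have e : ∀ a k, a ∈ (fs t).erase k → a ≠ k ∧ (a = t.1 ∨ a = t.2.1 ∨ a = t.2.2) := by simp [fs]
  rcases h l (List.mem_finRange l) with ((h | h) | h) | h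
  · exact Or.inl h
  · refine Or.inr ⟨_, by simp [fs], _, by simp [fs], h, _, by simp [fs], k1.1, fun a ha => ?_⟩
    rcases e _ _ ha with ⟨x, rfl | rfl | rfl⟩
    exacts [k1.2.1, k1.2.2.1, absurd rfl x]
  · refine Or.inr ⟨_, by simp [fs], _, by simp [fs], h, _, by simp [fs], k2.1, fun a ha => ?_⟩
    rcases e _ _ ha with ⟨x, rfl | rfl | rfl⟩
    exacts [absurd rfl x, k2.2.1, k2.2.2.1]
  · refine Or.inr ⟨_, by simp [fs], _, by simp [fs], h, _, by simp [fs], k3.1, fun a ha => ?_⟩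
    rcases e _ _ ha with ⟨x, rfl | rfl | rfl⟩
    exacts [k3.2.2.1, absurd rfl x, k3.2.1]

theorem H1 : ∀ s ∈ C, s.card = 3 ∧ ∀ k ∈ s, ∃ i ∈ s, ∃ j ∈ s, (∀ a ∈ s.erase k, D i j a = 0) ∧
    0 < D i j k ∧ ∃ t ∈ C, s.erase k ⊆ t ∧ t ≠ s ∧ (∀ a ∈ t, D i j a ≤ 0) ∧
      ∀ u ∈ C, s.erase k ⊆ u → u ≠ s → u = t := fun s hs => ⟨(G1 s hs).1, fun k hk => by
  obtain ⟨i, hi, j, hj, h1, h2, ik, jk, z1, z2, t, ht, it, jt, kt, h5, h6⟩ := (G1 s hs).2 k hk
  have e : ∀ a ∈ s.erase k, a = i ∨ a = j := fun a ha =>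
    (h2 a (mem_erase.1 ha).2).imp id fun h => h.resolve_right (mem_erase.1 ha).1
  exact ⟨i, hi, j, hj, fun a ha => (HS' i j a).1 ((e a ha).elim (fun h => h ▸ z1) fun h => h ▸ z2),
    (HS' i j k).2.1 h1, t, ht, fun a ha => (e a ha).elim (fun h => h ▸ it) fun h => h ▸ jt,
    fun h => kt (h ▸ hk), fun a ha => (HS' i j a).2.2.2 (h5 a ha), fun u hu h hne =>
      (h6 u hu (h (mem_erase.2 ⟨ik, hi⟩)) (h (mem_erase.2 ⟨jk, hj⟩))).resolve_right hne⟩⟩

theorem H2 : ∀ s ∈ C, ∀ l, l ∈ s ∨ ∃ i ∈ s, ∃ j ∈ s, D i j l < 0 ∧ ∃ k ∈ s, 0 < D i j k ∧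
    ∀ a ∈ s.erase k, D i j a = 0 := fun s hs l => (G2 s hs l).imp id
  fun ⟨i, hi, j, hj, h1, k, hk, h2, h3⟩ => ⟨i, hi, j, hj, (HS' i j l).2.2.1 h1, k, hk,
    (HS' i j k).2.1 h2, fun a ha => (HS' i j a).1 (h3 a ha)⟩

theorem app {s : Finset (Fin 20)} {k i j : Fin 20} (hk : k ∈ s) (h : ∀ a ∈ s.erase k, D i j a = 0)
    {f : (Fin 3 → ℝ) →ₗ[ℝ] ℝ} (hf : ∀ a, f (col W a) = D i j a) (c : Fin 20 → ℝ) :
    f (∑ a ∈ s, c a • col W a) = c k * D i j k := by
  rw [← add_sum_erase _ _ hk, map_add, map_sum, sum_eq_zero, map_smul, hf, add_zero, smul_eq_mul]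
  intro a ha
  rw [map_smul, hf, h a ha]; simp

theorem span : cone W univ = Set.univ := by
  refine Set.eq_univ_of_forall fun x => ?_
  obtain ⟨p, hp⟩ : ∃ p : ℝ, p = (((-2) * x 0 + (9) * x 1 + (35) * x 2) / 1) := ⟨_, rfl⟩
  obtain ⟨q, hq⟩ : ∃ q : ℝ, q = (((-4) * x 0 + (17) * x 1 + (66) * x 2) / 1) := ⟨_, rfl⟩
  obtain ⟨r, hr⟩ : ∃ r : ℝ, r = (((-3) * x 0 + (13) * x 1 + (51) * x 2) / 1) := ⟨_, rfl⟩
  obtain ⟨l, h0, h1, h2, h3⟩ : ∃ l : ℝ, 0 ≤ l ∧ -p ≤ l ∧ -q ≤ l ∧ -r ≤ l :=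
    ⟨|p| + |q| + |r|, by positivity, by
      linarith [neg_le_abs p, abs_nonneg q, abs_nonneg r], by
      linarith [neg_le_abs q, abs_nonneg p, abs_nonneg r], by
      linarith [neg_le_abs r, abs_nonneg q, abs_nonneg p]⟩
  refine ⟨fun i => (if i = 13 then p + 248 * l else 0) + (if i = 19 then q + 469 * l else 0) +
    (if i = 17 then r + 363 * l else 0) + (if i = 0 then 1 * l else 0), fun i => ?_, ?_⟩
  · refine add_nonneg (add_nonneg (add_nonneg ?_ ?_) ?_) ?_ <;> split_ifs <;> linarith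
  · simp only [add_smul, sum_add_distrib, ite_smul, zero_smul, sum_ite_eq', mem_univ, if_true]
    subst hp hq hr
    have w130 : W 13 0 = 9 := by decide +kernel
    have w131 : W 13 1 = 6 := by decide +kernel
    have w132 : W 13 2 = -1 := by decide +kernel
    have w190 : W 19 0 = -4 := by decide +kernel
    have w191 : W 19 1 = 3 := by decide +kernel
    have w192 : W 19 2 = -1 := by decide +kernel
    have w170 : W 17 0 = -1 := by decide +kernel
    have w171 : W 17 1 = -8 := by decide +kernel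
    have w172 : W 17 2 = 2 := by decide +kernel
    have w00 : W 0 0 = 7 := by decide +kernel
    have w01 : W 0 1 = 9 := by decide +kernel
    have w02 : W 0 2 = -9 := by decide +kernel
    ext a
    fin_cases a <;> simp [col, w130, w131, w132, w190, w191, w192, w170, w171, w172, w00, w01, w02] <;> ring

def par (n : ℕ) : ℕ := ([0, 0, 0, 0, 1, 1, 2, 2, 3, 3, 4, 4, 5, 5, 6, 6, 7, 7, 8, 8, 9, 9, 10, 10, 11, 11, 12, 12, 13, 13, 14, 14, 16, 17, 17, 18, 18, 19, 20, 20, 21, 21, 22, 22, 23, 24, 25, 29, 30, 31, 32, 32, 33, 33, 34, 35, 35, 36, 37, 38, 38, 45, 46, 49, 51, 51, 52, 53, 55, 58, 64, 67] : List ℕ).getD n 0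

def nth (n : ℕ) : Finset (Fin 20) := fs (T.getD n (0, 0, 0))

set_option synthInstance.maxSize 10000 in
theorem B2' : ∀ n < 72, n = 0 ∨ (par n < n ∧ ∃ k, mm k (T.getD n (0, 0, 0)) = true ∧
    mm k (T.getD (par n) (0, 0, 0)) = false ∧ (∀ a, mm a (T.getD n (0, 0, 0)) = true → a ≠ k →
      mm a (T.getD (par n) (0, 0, 0)) = true) ∧ ∃ j, mm j (T.getD (par n) (0, 0, 0)) = true ∧
      ∀ a, mm a (T.getD (par n) (0, 0, 0)) = true → a ≠ j → mm a (T.getD n (0, 0, 0)) = true) := by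
  decide +kernel

theorem B2 : ∀ n < 72, nth n ∈ C ∧ (n = 0 ∨ (par n < n ∧ nth n ≠ nth (par n) ∧
    (∃ k ∈ nth n, (nth n).erase k ⊆ nth (par n)) ∧
    ∃ k ∈ nth (par n), (nth (par n)).erase k ⊆ nth n)) := by
  intro n hn
  refine ⟨List.mem_map_of_mem ?_, (B2' n hn).imp id fun ⟨h, k, a1, a2, a3, j, a4, a5⟩ => ?_⟩
  · rw [List.getD_eq_getElem _ _ (show n < T.length from hn)]; exact List.getElem_mem _
  · simp only [mm_iff, ← Bool.not_eq_true] at a1 a2 a3 a4 a5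
    exact ⟨h, fun e => a2 (by rw [← nth, ← e]; exact a1), ⟨k, a1, fun a ha =>
      a3 a (mem_erase.1 ha).2 (mem_erase.1 ha).1⟩, j, a4, fun a ha =>
      a5 a (mem_erase.1 ha).2 (mem_erase.1 ha).1⟩

theorem B3 : ∀ s ∈ C, ∃ n < 72, nth n = s := by
  intro s hs
  obtain ⟨t, ht, rfl⟩ := List.mem_map.1 hs
  obtain ⟨n, hn, rfl⟩ := List.getElem_of_mem ht
  exact ⟨n, hn, by rw [nth, List.getD_eq_getElem _ _ hn]⟩

theorem minimal (C' : List (Finset (Fin 20))) (h : ∀ s ∈ C', s ∈ C) (hp : Pseudofan W C') :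
    ∀ s ∈ C, s ∈ C' := by
  have st : ∀ s ∈ C', ∀ k ∈ s, ∀ u ∈ C, u ≠ s → s.erase k ⊆ u → u ∈ C' := by
    intro s hs k hk u hu h1 h2
    obtain ⟨t, ht, a1, a2, _⟩ := hp.2.2 s hs k hk
    obtain ⟨_, _, _, _, _, _, t0, _, _, _, _, h6⟩ := (H1 s (h s hs)).2 k hk
    rw [h6 u hu h2 h1, ← h6 t (h t ht) a2 a1]; exact ht
  have key : ∀ n, n < 72 → (nth n ∈ C' ↔ nth 0 ∈ C') := by
    intro n
    induction n using Nat.strong_induction_on with
    | _ n ih =>
      intro hn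
      rcases (B2 n hn).2 with rfl | ⟨h1, h2, ⟨k, hk, h3⟩, k', hk', h4⟩
      · rfl
      · rw [← ih _ h1 (by omega)]
        exact ⟨fun x => st _ x k hk _ (B2 _ (by omega)).1 h2.symm h3,
          fun x => st _ x k' hk' _ (B2 n hn).1 h2 h4⟩
  intro s hs
  obtain ⟨s0, h0, _⟩ := hp.2.1 0
  obtain ⟨n, hn, rfl⟩ := B3 s hs
  obtain ⟨n0, hn0, rfl⟩ := B3 s0 (h s0 h0)
  exact (key n hn).2 ((key n0 hn0).1 h0)

theorem result : ∃ (m : ℕ) (V : Fin m → Fin 3 → ℤ) (C : List (Finset (Fin m))), FMatrix V ∧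
    Pseudofan V C ∧ (∀ C' : List (Finset (Fin m)), (∀ s ∈ C', s ∈ C) → Pseudofan V C' →
      ∀ s ∈ C, s ∈ C') ∧ ∃ s ∈ C, ∃ t ∈ C, s ≠ t ∧ (inner V s ∩ inner V t).Nonempty := by
  refine ⟨20, W, C, ⟨by decide +kernel, fun i j hij t _ e => ?_, span, by decide +kernel⟩,
    ⟨fun s hs => ⟨(H1 s hs).1, ?_, fun l hl hc => ?_⟩, by decide +kernel, fun s hs k hk => ?_⟩, minimal,
    {0, 13, 16}, by decide +kernel, {4, 6, 18}, by decide +kernel, by decide +kernel,
    ![101, 37, -53], ⟨fun i => if i = 0 then 2816 / 513 else if i = 13 then 205 / 57 else 1937 / 513, fun i => ?_, ?_⟩,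
    ⟨fun i => if i = 4 then 630 / 61 else if i = 6 then 1 / 61 else 585 / 61, fun i => ?_, ?_⟩⟩
  · obtain ⟨a, b, h⟩ := (by decide +kernel :
      ∀ i j : Fin 20, i ≠ j → ∃ a b, W i a * W j b ≠ W i b * W j a) i j hij
    have ha : (W i a : ℝ) = t * W j a := congrFun e a
    have hb : (W i b : ℝ) = t * W j b := congrFun e b
    refine h (Int.cast_injective (α := ℝ) ?_)
    push_cast; rw [ha, hb]; ring
  · refine linearIndepOn_finset_iff.2 ?_
    intro c hc k hk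
    obtain ⟨i, _, j, _, h1, h2, _⟩ := (H1 s hs).2 k hk
    obtain ⟨f, hf⟩ := exL i j
    have := app hk h1 hf c
    rw [hc, map_zero] at this
    exact (mul_eq_zero.1 this.symm).resolve_right (by exact_mod_cast h2.ne')
  · obtain ⟨i, _, j, _, h1, k, hk, h2, h3⟩ := (H2 s hs l).resolve_left hl
    obtain ⟨c, hc, e⟩ := hc
    obtain ⟨f, hf⟩ := exL i j
    have := app hk h3 hf c
    rw [← e, hf] at this
    have a1 : (D i j l : ℝ) < 0 := by exact_mod_cast h1
    have a2 : (0 : ℝ) < D i j k := by exact_mod_cast h2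
    nlinarith [mul_nonneg (hc k) a2.le]
  · obtain ⟨i, _, j, _, h1, h2, t, ht, h4, h5, h3, h6⟩ := (H1 s hs).2 k hk
    obtain ⟨f, hf⟩ := exL i j
    refine ⟨t, ht, h5, h4, fun u hu a b => h6 u hu b a, f, fun a ha => ?_, ?_, fun a ha => ?_⟩
    · rw [hf, h1 a ha]; simp
    · rw [hf]; exact_mod_cast h2
    · rw [hf]; exact_mod_cast h3 a ha
  · beta_reduce
    split_ifs <;> norm_num
  · rw [sum_insert (by decide), sum_pair (by decide)]
    have w00 : W 0 0 = 7 := by decide +kernel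
    have w01 : W 0 1 = 9 := by decide +kernel
    have w02 : W 0 2 = -9 := by decide +kernel
    have w130 : W 13 0 = 9 := by decide +kernel
    have w131 : W 13 1 = 6 := by decide +kernel
    have w132 : W 13 2 = -1 := by decide +kernel
    have w160 : W 16 0 = 8 := by decide +kernel
    have w161 : W 16 1 = -9 := by decide +kernel
    have w162 : W 16 2 = 0 := by decide +kernel
    ext a
    fin_cases a <;> simp [col, w00, w01, w02, w130, w131, w132, w160, w161, w162] <;> norm_num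
  · beta_reduce
    split_ifs <;> norm_num
  · rw [sum_insert (by decide), sum_pair (by decide)]
    have w40 : W 4 0 = 7 := by decide +kernel
    have w41 : W 4 1 = -2 := by decide +kernel
    have w42 : W 4 2 = -7 := by decide +kernel
    have w60 : W 6 0 = -4 := by decide +kernel
    have w61 : W 6 1 = 7 := by decide +kernel
    have w62 : W 6 2 = 7 := by decide +kernel
    have w180 : W 18 0 = 3 := by decide +kernel
    have w181 : W 18 1 = 6 := by decide +kernel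
    have w182 : W 18 2 = 2 := by decide +kernel
    ext a
    fin_cases a <;> simp [col, w40, w41, w42, w60, w61, w62, w180, w181, w182] <;> norm_num

end Pool.Agent.Results.MP_d9dcf6_co.DoubleCover
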